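import Pool.Agent.Lib.MP_018119_an_MX.Main

/-!
# MP_018119_an: every nonremovable curve contains a Cantor set which is nonremovable up to
countably many exceptional points
-/

set_option autoImplicit false

namespace Pool.Agent.Results.MP_018119_an.CountableExceptions

open Topology Filter Set

/-- Let `C` be a Jordan arc or a Jordan curve in the plane, let `f` be a homeomorphism of the plane
which is holomorphic off `C` and not affine, and let `ε > 0`.  Then `C` contains a compact, perfect,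
totally disconnected, nonempty set `K`, and there are a countable set `E ⊆ K` and a map `F` such
that `F` restricted to the complement of `E` is a homeomorphism onto its image with a uniformly
continuous inverse, `F` is holomorphic off `K` and not affine there, `F` differs from `f` by at most
`ε` off `E`, and the sum of the oscillations of `F` at the points of `E` is at most `ε`. -/
theorem result (C : Set ℂ)
    (hC : (∃ γ : ℝ → ℂ, ContinuousOn γ (Set.Icc 0 1) ∧ Set.InjOn γ (Set.Icc 0 1) ∧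
          C = γ '' Set.Icc 0 1) ∨
        (∃ γ : Circle → ℂ, Continuous γ ∧ Function.Injective γ ∧ C = Set.range γ))
    (f : ℂ ≃ₜ ℂ) (hf : DifferentiableOn ℂ (⇑f) Cᶜ) (hna : ¬ ∃ a b : ℂ, ∀ z, f z = a * z + b)
    (ε : ℝ) (hε : 0 < ε) :
    ∃ (K E : Set ℂ) (F : ℂ → ℂ) (ω : ℂ → ℝ),
      K ⊆ C ∧ IsCompact K ∧ Perfect K ∧ IsTotallyDisconnected K ∧ K.Nonempty ∧
      E ⊆ K ∧ E.Countable ∧
      ContinuousOn F Eᶜ ∧
      (∀ η > 0, ∃ δ > 0, ∀ x ∉ E, ∀ y ∉ E, η ≤ dist x y → δ ≤ dist (F x) (F y)) ∧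
      DifferentiableOn ℂ F Kᶜ ∧ (¬ ∃ a b : ℂ, ∀ z ∉ K, F z = a * z + b) ∧
      (∀ z ∉ E, ‖F z - f z‖ ≤ ε) ∧
      (∀ e ∈ E, ∃ U ∈ 𝓝 e, ∀ x ∈ U, ∀ y ∈ U, x ∉ E → y ∉ E → dist (F x) (F y) ≤ ω e) ∧
      (∀ e, 0 ≤ ω e) ∧ ∀ S : Finset ℂ, (S : Set ℂ) ⊆ E → ∑ e ∈ S, ω e ≤ ε :=
  Pool.Agent.MX018.main_T1 hC f hf hna hε

end Pool.Agent.Results.MP_018119_an.CountableExceptions
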