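import Pool.Agent.Lib.MP_018119_an_MY.MainLoc

/-!
# MP_018119_an: Bishop's question for curves with many loops of countable intersection
-/

set_option autoImplicit false

namespace Pool.Agent.Results.MP_018119_an.InfiniteModulusLoops

open Topology Filter Set MeasureTheory

/-- A loop `σ` in `A`, parametrized by the interval from `0` to `1`, which surrounds the point `p`
(the component of `p` in the complement of the loop is bounded) and which is differentiable and
outside of `C` for all but countably many parameters. -/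
structure CountableLoop (C : Set ℂ) (p : ℂ) (A : Set ℂ) (σ : ℝ → ℂ) : Prop where
  continuous : Continuous σ
  closed : σ 0 = σ 1
  mem : ∀ t ∈ Set.Icc (0 : ℝ) 1, σ t ∈ A
  countable : {t : ℝ | t ∈ Set.Icc (0 : ℝ) 1 ∧ (¬ DifferentiableAt ℝ σ t ∨ σ t ∈ C)}.Countable
  ne : ∀ t ∈ Set.Icc (0 : ℝ) 1, σ t ≠ p
  surrounds : Bornology.IsBounded (connectedComponentIn (σ '' Set.Icc 0 1)ᶜ p)

/-- In every disc around `p`, the loops which surround `p` and have countable intersection with `C`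
form a family of infinite modulus. -/
def InfiniteModulus (C : Set ℂ) (p : ℂ) : Prop :=
  ∀ r > 0, ∀ ρ : ℂ → ENNReal, Measurable ρ →
    (∀ σ : ℝ → ℂ, CountableLoop C p (Metric.ball p r) σ →
      1 ≤ ∫⁻ t in Set.Icc (0 : ℝ) 1, ρ (σ t) * ‖deriv σ t‖ₑ) →
    ∫⁻ z in Metric.ball p r, ρ z ^ 2 = ⊤

/-- Let `C` be a Jordan arc or a Jordan curve in the plane, let `f` be a homeomorphism of the plane
which is holomorphic off `C`, and let `U` be an open set on which `f` is not holomorphic.  Suppose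
that the points of infinite modulus are dense in `U ∩ C`.  Then there are a compact, perfect, totally
disconnected, nonempty set `K` in `C ∩ U` and a homeomorphism `g` of the plane, which is holomorphic
off `K` and not affine. -/
theorem result (C : Set ℂ)
    (hC : (∃ γ : ℝ → ℂ, ContinuousOn γ (Set.Icc 0 1) ∧ Set.InjOn γ (Set.Icc 0 1) ∧
          C = γ '' Set.Icc 0 1) ∨
        (∃ γ : Circle → ℂ, Continuous γ ∧ Function.Injective γ ∧ C = Set.range γ))
    (f : ℂ ≃ₜ ℂ) (hf : DifferentiableOn ℂ (⇑f) Cᶜ)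
    (U : Set ℂ) (hU : IsOpen U) (hUf : ¬ DifferentiableOn ℂ (⇑f) U)
    (hD : ∀ V : Set ℂ, IsOpen V → V ⊆ U → (V ∩ C).Nonempty → ∃ p ∈ V ∩ C, InfiniteModulus C p) :
    ∃ K : Set ℂ, K ⊆ C ∩ U ∧ IsCompact K ∧ Perfect K ∧ IsTotallyDisconnected K ∧ K.Nonempty ∧
      ∃ g : ℂ ≃ₜ ℂ, DifferentiableOn ℂ (⇑g) Kᶜ ∧ ¬ ∃ a b : ℂ, ∀ z, g z = a * z + b := by
  refine Pool.Agent.MY018.main_inf hC f hf hU hUf fun V hV hVU hVC => ?_
  obtain ⟨p, hp, h⟩ := hD V hV hVU hVC
  refine ⟨p, hp, fun r hr ρ hρ hadm => h r hr ρ hρ fun σ hσ => hadm σ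
    ⟨hσ.continuous, hσ.closed, hσ.mem, hσ.countable, hσ.ne, hσ.surrounds⟩⟩

end Pool.Agent.Results.MP_018119_an.InfiniteModulusLoops
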