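import Pool.Agent.Lib.MP_018119_an_MY.MainLoc

/-!
# MP_018119_an: Bishop's question for curves whose harmonic measures are not mutually singular
-/

set_option autoImplicit false

namespace Pool.Agent.Results.MP_018119_an.NonsingularHarmonicMeasures

open Topology Filter Set MeasureTheory Metric

/-- Let `f₁` and `f₂` be the Riemann maps of the two sides of a Jordan curve `Γ`: `f₁` is a
homeomorphism of the closed unit disc onto its image, holomorphic inside, `f₂` is a homeomorphism of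
the closed exterior of the unit disc onto its image, holomorphic inside and proper, the two images
cover the plane, and their interiors are disjoint.  Let `h` be the welding homeomorphism,
`f₁ (exp (i x)) = f₂ (exp (i h x))`.  Let `C` be `Γ` or a Jordan arc in `Γ`, let `f` be a
homeomorphism of the plane, holomorphic off `C`, and let `U` be an open set on which `f` is not
holomorphic.  Suppose that the two harmonic measures are not mutually singular on any open subset of
`U ∩ C`: for each open set `V` in `U` which meets `C`, the set of the `x` with `f₁ (exp (i x))` in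
`V ∩ C` at which `h` has a nonzero derivative has positive measure.  Then there are a compact,
perfect, totally disconnected, nonempty set `K` in `C ∩ U` and a homeomorphism `g` of the plane,
which is holomorphic off `K` and not affine. -/
theorem result (C : Set ℂ)
    (hC : (∃ γ : ℝ → ℂ, ContinuousOn γ (Set.Icc 0 1) ∧ Set.InjOn γ (Set.Icc 0 1) ∧
          C = γ '' Set.Icc 0 1) ∨
        (∃ γ : Circle → ℂ, Continuous γ ∧ Function.Injective γ ∧ C = Set.range γ))
    (f₁ f₂ : ℂ → ℂ) (h : ℝ → ℝ)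
    (h1c : ContinuousOn f₁ (closedBall 0 1)) (h1i : InjOn f₁ (closedBall 0 1))
    (h1d : DifferentiableOn ℂ f₁ (ball 0 1))
    (h2c : ContinuousOn f₂ (ball 0 1)ᶜ) (h2i : InjOn f₂ (ball 0 1)ᶜ)
    (h2d : DifferentiableOn ℂ f₂ (closedBall 0 1)ᶜ)
    (h2p : Tendsto f₂ (cocompact ℂ) (cocompact ℂ))
    (hcov : f₁ '' closedBall 0 1 ∪ f₂ '' (ball 0 1)ᶜ = univ)
    (hdis : Disjoint (f₁ '' ball 0 1) (f₂ '' (closedBall 0 1)ᶜ))
    (hmono : StrictMono h) (hcont : Continuous h)
    (hper : ∀ x, h (x + 2 * Real.pi) = h x + 2 * Real.pi)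
    (hweld : ∀ x : ℝ, f₁ (Complex.exp (x * Complex.I)) = f₂ (Complex.exp (h x * Complex.I)))
    (hsub : C ⊆ f₁ '' sphere 0 1)
    (f : ℂ ≃ₜ ℂ) (hf : DifferentiableOn ℂ (⇑f) Cᶜ)
    (U : Set ℂ) (hU : IsOpen U) (hUf : ¬ DifferentiableOn ℂ (⇑f) U)
    (hns : ∀ V : Set ℂ, IsOpen V → V ⊆ U → (V ∩ C).Nonempty →
      volume {x : ℝ | f₁ (Complex.exp (x * Complex.I)) ∈ V ∩ C ∧ DifferentiableAt ℝ h x ∧
        deriv h x ≠ 0} ≠ 0) :
    ∃ K : Set ℂ, K ⊆ C ∩ U ∧ IsCompact K ∧ Perfect K ∧ IsTotallyDisconnected K ∧ K.Nonempty ∧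
      ∃ g : ℂ ≃ₜ ℂ, DifferentiableOn ℂ (⇑g) Kᶜ ∧ ¬ ∃ a b : ℂ, ∀ z, g z = a * z + b :=
  Pool.Agent.MY018.main_H_loc hC f hf hU hUf
    ⟨h1c, h1i, h1d, h2c, h2i, h2d, h2p, hcov, hdis, hmono, hcont, hper, hweld, hsub⟩ hns

end Pool.Agent.Results.MP_018119_an.NonsingularHarmonicMeasures
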