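import Pool.Agent.Lib.MP_018119_an.Main

/-!
# MP_018119_an: curves carrying measures with smooth slices contain nonremovable Cantor sets
-/

set_option autoImplicit false

namespace Pool.Agent.Results.MP_018119_an.SmoothSlices

open MeasureTheory

/-- Let `C` be a Jordan arc or a Jordan curve in the plane which carries a nonzero finite measure
`μ` with slices of class `C^{1,α}` in some direction: for some complex number `c ≠ 0` the sets
`{Re (c z) = x}` are null sets, and for every real `x` the measure `B ↦ μ {Re (c z) ≤ x, Im (c z) ∈ B}`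
has a nonnegative density `h x` whose derivative `h' x` satisfies
`|h' x y - h' x y'| ≤ M |y - y'| ^ α`, with `0 < α ≤ 1` and `M` independent of `x`.  Then `C`
contains a compact, perfect, totally disconnected, nonempty set `K` which is not conformally
removable: some homeomorphism of the plane which is not affine is holomorphic off `K`. -/
theorem result (C : Set ℂ)
    (hC : (∃ γ : ℝ → ℂ, ContinuousOn γ (Set.Icc 0 1) ∧ Set.InjOn γ (Set.Icc 0 1) ∧
          C = γ '' Set.Icc 0 1) ∨
        (∃ γ : Circle → ℂ, Continuous γ ∧ Function.Injective γ ∧ C = Set.range γ))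
    (μ : Measure ℂ) [IsFiniteMeasure μ] (hμ0 : μ ≠ 0) (hμC : μ Cᶜ = 0)
    (c : ℂ) (hc : c ≠ 0) (hline : ∀ x : ℝ, μ {z | (c * z).re = x} = 0)
    (h h' : ℝ → ℝ → ℝ) (hnn : ∀ x y, 0 ≤ h x y)
    (hdens : ∀ (x : ℝ) (B : Set ℝ), MeasurableSet B →
      μ {z | (c * z).re ≤ x ∧ (c * z).im ∈ B} = ∫⁻ y in B, ENNReal.ofReal (h x y))
    (hderiv : ∀ x y, HasDerivAt (h x) (h' x y) y)
    (M α : ℝ) (hα : 0 < α) (hα1 : α ≤ 1)
    (hM : ∀ x y y', |h' x y - h' x y'| ≤ M * |y - y'| ^ α) :
    ∃ K : Set ℂ, K ⊆ C ∧ IsCompact K ∧ Perfect K ∧ IsTotallyDisconnected K ∧ K.Nonempty ∧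
      ∃ f : ℂ ≃ₜ ℂ, DifferentiableOn ℂ (⇑f) Kᶜ ∧ ¬ ∃ a b : ℂ, ∀ z, f z = a * z + b := by
  have hmeas : Measurable (fun z : ℂ => c * z) := measurable_const_mul c
  have hcC : Pool.Agent.MP018119.IsCurve C := hC
  have hC' : Pool.Agent.MP018119.IsCurve ((fun z => c * z) '' C) :=
    Pool.Agent.MP018119.IsCurve.image hcC hc
  have h1 : μ.map (fun z => c * z) ≠ 0 := by
    intro h0
    exact hμ0 ((Measure.map_eq_zero_iff hmeas.aemeasurable).1 h0)
  have hm : MeasurableSet ((fun z => c * z) '' C) := hC'.isCompact.isClosed.measurableSet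
  have h2 : μ.map (fun z => c * z) ((fun z => c * z) '' C)ᶜ = 0 := by
    rw [Measure.map_apply hmeas hm.compl]
    refine measure_mono_null ?_ hμC
    intro z hz hzC
    exact hz ⟨z, hzC, rfl⟩
  refine Pool.Agent.MP018119.HasNR.of_image hc
    (Pool.Agent.MP018119.main_vert (μ := μ.map (fun z => c * z)) (h := h) (h' := h') (M := M)
      (α := α) hC' h1 h2 hα hα1 ?_ ⟨hnn, ?_, hderiv⟩ hM)
  · intro x
    rw [Measure.map_apply hmeas (measurableSet_eq_fun Complex.measurable_re measurable_const)]
    exact hline x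
  · intro x B hB
    rw [Measure.map_apply hmeas]
    · exact hdens x B hB
    · exact (measurableSet_le Complex.measurable_re measurable_const).inter
        (Complex.measurable_im hB)

end Pool.Agent.Results.MP_018119_an.SmoothSlices
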